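import Mathlib

/-!
# MP_270b6b_co, the case `m = 2 n + 2`: definitions and toolkit

`C` is the complement of the given graph; it has `2 h` vertices, `h = n + 1`.
All numbers of edges are doubled (`E2`) to avoid division.
-/

set_option autoImplicit false
set_option linter.unusedSectionVars false

namespace Pool.Agent.Lib.MP270b6b.TN

open Finset

variable {V : Type} [Fintype V] [DecidableEq V] (C : SimpleGraph V) [DecidableRel C.Adj]

/-- number of neighbours of `x` in `S` -/
def dg (S : Finset V) (x : V) : ℕ := (S.filter (fun y => C.Adj x y)).card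

/-- twice the number of edges inside `S` -/
def E2 (S : Finset V) : ℕ := ∑ x ∈ S, dg C S x

/-- every vertex of `S` has at least two neighbours in `S` -/
def Core (S : Finset V) : Prop := ∀ v ∈ S, 2 ≤ dg C S v

/-- `A` has core subsets of every size from `4` to `|A|` -/
def Flex (A : Finset V) : Prop :=
  ∀ s : ℕ, 4 ≤ s → s ≤ A.card → ∃ T ⊆ A, T.card = s ∧ Core C T

/-- A counterexample: `2 h` vertices, `h (h + 1) / 2 + 1` edges, no core set of size `h + 1`, and no
partition into two sets of size `h`, both without isolated vertices. -/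
structure Bad (h : ℕ) : Prop where
  card : Fintype.card V = 2 * h
  edges : E2 C univ = h * (h + 1) + 2
  nocore : ∀ S : Finset V, S.card = h + 1 → ¬ Core C S
  nobal : ∀ P Q : Finset V, Disjoint P Q → P.card = h → Q.card = h →
    (∀ v ∈ P, 1 ≤ dg C P v) → ¬ ∀ v ∈ Q, 1 ≤ dg C Q v

theorem dg_mono {S T : Finset V} (h : S ⊆ T) (x : V) : dg C S x ≤ dg C T x :=
  card_le_card (filter_subset_filter _ h)

theorem dg_union {A B : Finset V} (h : Disjoint A B) (x : V) :
    dg C (A ∪ B) x = dg C A x + dg C B x := by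
  unfold dg
  rw [filter_union, card_union_of_disjoint (disjoint_filter_filter h)]

theorem dg_erase_self (S : Finset V) (v : V) : dg C (S.erase v) v = dg C S v := by
  unfold dg
  congr 1
  ext y
  simp only [mem_filter, mem_erase]
  constructor
  · rintro ⟨⟨-, h1⟩, h2⟩
    exact ⟨h1, h2⟩
  · rintro ⟨h1, h2⟩
    exact ⟨⟨(C.ne_of_adj h2).symm, h1⟩, h2⟩

/-- number of neighbours in a set without the vertex `v` -/
theorem dg_erase {S : Finset V} {v : V} (hv : v ∈ S) (x : V) :
    dg C (S.erase v) x + (if C.Adj x v then 1 else 0) = dg C S x := by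
  have h1 : S = S.erase v ∪ {v} := by
    rw [union_comm, ← insert_eq, insert_erase hv]
  have h2 : Disjoint (S.erase v) {v} := by simp
  conv_rhs => rw [h1]
  rw [dg_union C h2]
  congr 1
  unfold dg
  rw [filter_singleton]
  split_ifs <;> simp

theorem dg_erase_ge {S : Finset V} (v x : V) : dg C S x ≤ dg C (S.erase v) x + 1 := by
  by_cases hv : v ∈ S
  · have h := dg_erase C hv x
    split_ifs at h <;> omega
  · rw [erase_eq_of_notMem hv]
    omega

theorem dg_le {S : Finset V} {x : V} (hx : x ∈ S) : dg C S x + 1 ≤ S.card := by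
  rw [← dg_erase_self]
  have h1 : dg C (S.erase x) x ≤ (S.erase x).card := card_filter_le _ _
  have h2 := card_erase_add_one hx
  omega

/-- double counting between two sets -/
theorem dg_swap (A B : Finset V) : ∑ x ∈ A, dg C B x = ∑ y ∈ B, dg C A y := by
  unfold dg
  simp only [card_filter]
  rw [sum_comm]
  refine sum_congr rfl fun y _ => sum_congr rfl fun x _ => ?_
  simp only [C.adj_comm]

theorem E2_union {A B : Finset V} (h : Disjoint A B) :
    E2 C (A ∪ B) = E2 C A + E2 C B + 2 * ∑ u ∈ B, dg C A u := by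
  unfold E2
  rw [sum_union h]
  simp only [dg_union C h]
  rw [sum_add_distrib, sum_add_distrib, dg_swap C A B]
  ring

theorem E2_erase {S : Finset V} {v : V} (hv : v ∈ S) :
    E2 C S = E2 C (S.erase v) + 2 * dg C S v := by
  have h1 : S = S.erase v ∪ {v} := by
    rw [union_comm, ← insert_eq, insert_erase hv]
  have h2 : Disjoint (S.erase v) {v} := by simp
  have h3 := E2_union C h2
  rw [← h1, sum_singleton, dg_erase_self] at h3
  have h4 : E2 C {v} = 0 := by
    unfold E2 dg
    rw [sum_singleton, card_eq_zero, filter_eq_empty_iff]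
    intro y hy
    rw [mem_singleton] at hy
    subst hy
    exact C.irrefl
  rw [h4] at h3
  omega

theorem E2_even (S : Finset V) : ∃ e, E2 C S = 2 * e := by
  induction S using Finset.strongInduction with
  | H S ih =>
    rcases S.eq_empty_or_nonempty with rfl | ⟨v, hv⟩
    · exact ⟨0, by simp [E2]⟩
    · obtain ⟨e, he⟩ := ih _ (erase_ssubset hv)
      exact ⟨e + dg C S v, by rw [E2_erase C hv, he]; ring⟩

theorem E2_le (S : Finset V) : E2 C S ≤ S.card * (S.card - 1) := by
  unfold E2
  refine (sum_le_sum (fun x hx => ?_)).trans (by rw [sum_const, smul_eq_mul])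
  have := dg_le C hx
  omega

theorem E2_mono {S T : Finset V} (h : S ⊆ T) : E2 C S ≤ E2 C T := by
  unfold E2
  exact (sum_le_sum (fun x _ => dg_mono C h x)).trans
    (sum_le_sum_of_subset_of_nonneg h (fun _ _ _ => Nat.zero_le _))

theorem core_union {A B : Finset V} (hA : Core C A) (hB : Core C B) : Core C (A ∪ B) := by
  intro v hv
  rcases mem_union.mp hv with h | h
  · exact (hA v h).trans (dg_mono C subset_union_left v)
  · exact (hB v h).trans (dg_mono C subset_union_right v)

theorem Flex.core {A : Finset V} (hA : Flex C A) (h4 : 4 ≤ A.card) : Core C A := by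
  obtain ⟨T, hT, hc, hcore⟩ := hA A.card h4 le_rfl
  rw [eq_of_subset_of_card_le hT (le_of_eq hc.symm)] at hcore
  exact hcore

/-- if `x` has a neighbour in `S` -/
theorem one_le_dg {S : Finset V} {x y : V} (hy : y ∈ S) (h : C.Adj x y) : 1 ≤ dg C S x := by
  unfold dg
  exact card_pos.mpr ⟨y, mem_filter.mpr ⟨hy, h⟩⟩

theorem two_le_dg {S : Finset V} {x y z : V} (hy : y ∈ S) (hz : z ∈ S) (hyz : y ≠ z)
    (h : C.Adj x y) (h' : C.Adj x z) : 2 ≤ dg C S x := by
  unfold dg
  exact one_lt_card.mpr ⟨y, mem_filter.mpr ⟨hy, h⟩, z, mem_filter.mpr ⟨hz, h'⟩, hyz⟩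

theorem exists_of_one_le {S : Finset V} {x : V} (h : 1 ≤ dg C S x) : ∃ y ∈ S, C.Adj x y := by
  unfold dg at h
  obtain ⟨y, hy⟩ := card_pos.mp h
  exact ⟨y, (mem_filter.mp hy).1, (mem_filter.mp hy).2⟩

theorem exists_of_two_le {S : Finset V} {x : V} (h : 2 ≤ dg C S x) :
    ∃ y ∈ S, ∃ z ∈ S, y ≠ z ∧ C.Adj x y ∧ C.Adj x z := by
  unfold dg at h
  obtain ⟨y, hy, z, hz, hyz⟩ := one_lt_card.mp h
  exact ⟨y, (mem_filter.mp hy).1, z, (mem_filter.mp hz).1, hyz, (mem_filter.mp hy).2,
    (mem_filter.mp hz).2⟩

/-- a lower bound for the number of neighbours in a subset: at most `|S \ T|` are lost -/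
theorem dg_sub {S T : Finset V} (h : T ⊆ S) (x : V) :
    dg C S x ≤ dg C T x + (S \ T).card := by
  have h1 : S = T ∪ (S \ T) := (union_sdiff_of_subset h).symm
  conv_lhs => rw [h1]
  rw [dg_union C disjoint_sdiff]
  have : dg C (S \ T) x ≤ (S \ T).card := card_filter_le _ _
  omega

/-- a nonempty core set has at least three vertices -/
theorem Core.three {B : Finset V} (h : Core C B) (hB : B.Nonempty) : 3 ≤ B.card := by
  obtain ⟨v, hv⟩ := hB
  have h1 := h v hv
  have h2 := dg_le C hv
  omega

/-- missing neighbours in a subset are missing neighbours -/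
theorem dg_add_card {S T : Finset V} (h : T ⊆ S) (x : V) :
    dg C S x + T.card ≤ dg C T x + S.card := by
  have h1 := dg_sub C h x
  have h2 := card_sdiff_add_card_eq_card h
  omega

/-- if `A` has `rb` missing edges, then no vertex misses more than `rb` neighbours -/
theorem dg_ge_of_miss {A : Finset V} {h rb : ℕ} (hA : A.card = h)
    (hm : E2 C A + 2 * rb = h * (h - 1)) {x : V} (hx : x ∈ A) : h ≤ dg C A x + rb + 1 := by
  have h1 := E2_erase C hx
  have h2 := E2_le C (A.erase x)
  have h3 : (A.erase x).card = h - 1 := by rw [card_erase_of_mem hx, hA]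
  rw [h3] at h2
  have hpos : 0 < h := by rw [← hA]; exact card_pos.mpr ⟨x, hx⟩
  obtain ⟨k, rfl⟩ : ∃ k, h = k + 1 := ⟨h - 1, by omega⟩
  have h4 : (k + 1) * (k + 1 - 1) = k * (k - 1) + 2 * k := by
    rcases k with _ | j
    · simp
    · simp only [Nat.add_sub_cancel]; ring
  have h5 : k + 1 - 1 = k := by omega
  rw [h5] at h2
  rw [h4] at hm
  omega

/-- the number of edges of the complement of a set -/
theorem E2_compl (A : Finset V) :
    E2 C univ = E2 C A + E2 C Aᶜ + 2 * ∑ u ∈ Aᶜ, dg C A u := by
  have h := E2_union C (disjoint_compl_right (a := A))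
  rw [union_compl] at h
  exact h

end Pool.Agent.Lib.MP270b6b.TN
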