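import Pool.Agent.Lib.MP_270b6b_co.TN.Spec

/-!
# MP_270b6b_co, the case `m = 2 n + 2`: module EXC
-/

set_option autoImplicit false
set_option linter.unusedSectionVars false

namespace Pool.Agent.Lib.MP270b6b.TN

open Finset

namespace EXCM

variable {V : Type} [Fintype V] [DecidableEq V] (C : SimpleGraph V) [DecidableRel C.Adj]

theorem complete {h : ℕ} {A : Finset V} (hA : A.card = h) (hE : E2 C A = h * (h - 1)) :
    ∀ x ∈ A, ∀ y ∈ A, x ≠ y → C.Adj x y := by
  intro x hx y hy hxy
  have h1 : h ≤ dg C A x + 0 + 1 := dg_ge_of_miss C hA (by rw [hE, Nat.mul_zero, Nat.add_zero]) hx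
  have h2 := dg_erase_self C A x
  have h3 : (A.erase x).filter (fun y => C.Adj x y) = A.erase x := by
    refine eq_of_subset_of_card_le (filter_subset _ _) ?_
    show (A.erase x).card ≤ dg C (A.erase x) x
    rw [h2]
    have := card_erase_add_one hx
    omega
  have h4 : y ∈ (A.erase x).filter (fun y => C.Adj x y) := by
    rw [h3]
    exact mem_erase.mpr ⟨hxy.symm, hy⟩
  exact (mem_filter.mp h4).2

end EXCM

theorem specEXC : SpecEXC := by
  intro V _ _ C _ h A B z w hh hbad hA hE hzA hzB hAc hw hsemi hsum hone hnoseg hz
  have hcomp := EXCM.complete C hA hE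
  have hBc : ∀ v ∈ B, v ∉ A := by
    intro v hv
    have : v ∈ Aᶜ := by rw [hAc]; exact mem_insert_of_mem hv
    exact mem_compl.mp this
  have hBcard : B.card + 1 = h := by
    have h1 : Aᶜ.card = 2 * h - h := by rw [card_compl, hbad.card, hA]
    rw [hAc, card_insert_of_notMem hzB] at h1
    omega
  have hdA : ∀ v ∈ B, dg C A v ≤ 1 := by
    intro v hv
    unfold dg
    have : A.filter (fun y => C.Adj v y) ⊆ {w} := by
      intro y hy
      rw [mem_filter] at hy
      rw [mem_singleton]
      exact hone v hv y hy.1 hy.2
    exact (card_le_card this).trans (by rw [card_singleton])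
  have hadj : ∀ v ∈ B, 1 ≤ dg C A v → C.Adj v w := by
    intro v hv h1
    obtain ⟨y, hy, h2⟩ := exists_of_one_le C h1
    rw [hone v hv y hy h2] at h2
    exact h2
  obtain ⟨u, huB, hu⟩ : ∃ u ∈ B, 1 ≤ dg C A u := by
    by_contra hcon
    push Not at hcon
    have : ∑ v ∈ B, dg C A v = 0 := sum_eq_zero (fun v hv => by have := hcon v hv; omega)
    omega
  have huw : C.Adj u w := hadj u huB hu
  have huA := hBc u huB
  have hwB : w ∉ B := fun hc => hBc w hc hw
  have hzw : z ≠ w := fun hc => hzA (hc ▸ hw)
  obtain ⟨w0, hw0, hzw0⟩ := exists_of_one_le C hz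
  by_cases hww : w0 = w
  · rw [hww] at hzw0
    -- the case `w0 = w`
    have hcard1 : (A.erase w).card + 1 = h := by rw [card_erase_add_one hw, hA]
    obtain ⟨x, hx, y, hy, hxy⟩ := one_lt_card.mp (show 1 < (A.erase w).card by omega)
    rw [mem_erase] at hx hy
    have hA2 : ((A.erase x).erase y).card + 2 = h := by
      have h1 := card_erase_add_one hx.2
      have h2 : y ∈ A.erase x := mem_erase.mpr ⟨hxy.symm, hy.2⟩
      have h3 := card_erase_add_one h2
      omega
    have hzu : z ≠ u := fun hc => hzB (hc ▸ huB)
    have hu2 : u ∉ (A.erase x).erase y := fun hc => huA (mem_of_mem_erase (mem_of_mem_erase hc))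
    have hz2 : z ∉ insert u ((A.erase x).erase y) := by
      intro hc
      rcases mem_insert.mp hc with hc | hc
      · exact hzu hc
      · exact hzA (mem_of_mem_erase (mem_of_mem_erase hc))
    have hw2 : w ∈ (A.erase x).erase y :=
      mem_erase.mpr ⟨hy.1.symm, mem_erase.mpr ⟨hx.1.symm, hw⟩⟩
    have hy2 : y ∉ B.erase u := fun hc => hBc y (mem_of_mem_erase hc) hy.2
    have hx2 : x ∉ insert y (B.erase u) := by
      intro hc
      rcases mem_insert.mp hc with hc | hc
      · exact hxy hc
      · exact hBc x (mem_of_mem_erase hc) hx.2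
    refine hbad.nobal (insert z (insert u ((A.erase x).erase y)))
      (insert x (insert y (B.erase u))) ?_ ?_ ?_ ?_ ?_
    · rw [disjoint_left]
      intro t ht ht'
      simp only [mem_insert, mem_erase] at ht ht'
      rcases ht with rfl | rfl | ⟨h1, h2, h3⟩
      · rcases ht' with rfl | rfl | ⟨h4, h5⟩
        · exact hzA hx.2
        · exact hzA hy.2
        · exact hzB h5
      · rcases ht' with rfl | rfl | ⟨h4, h5⟩
        · exact huA hx.2
        · exact huA hy.2
        · exact h4 rfl
      · rcases ht' with h4 | h4 | ⟨h4, h5⟩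
        · exact h2 h4
        · exact h1 h4
        · exact hBc t h5 h3
    · rw [card_insert_of_notMem hz2, card_insert_of_notMem hu2]
      omega
    · rw [card_insert_of_notMem hx2, card_insert_of_notMem hy2]
      have := card_erase_add_one huB
      omega
    · intro v hv
      rcases mem_insert.mp hv with rfl | hv
      · exact one_le_dg C (mem_insert_of_mem (mem_insert_of_mem hw2)) hzw0
      rcases mem_insert.mp hv with rfl | hv
      · exact one_le_dg C (mem_insert_of_mem (mem_insert_of_mem hw2)) huw
      · obtain ⟨t, ht, htv⟩ := exists_mem_ne (show 1 < ((A.erase x).erase y).card by omega) v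
        refine one_le_dg C (mem_insert_of_mem (mem_insert_of_mem ht)) (hcomp v ?_ t ?_ htv.symm)
        · exact mem_of_mem_erase (mem_of_mem_erase hv)
        · exact mem_of_mem_erase (mem_of_mem_erase ht)
    · intro v hv
      rcases mem_insert.mp hv with rfl | hv
      · exact one_le_dg C (mem_insert_of_mem (mem_insert_self _ _)) (hcomp v hx.2 y hy.2 hxy)
      rcases mem_insert.mp hv with rfl | hv
      · exact one_le_dg C (mem_insert_self _ _) (hcomp v hy.2 x hx.2 hxy.symm)
      · have hvB := mem_of_mem_erase hv
        have h1 : 1 ≤ dg C (B.erase u) v := by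
          by_contra hcon
          have h2 := dg_erase_ge C (S := B) u v
          have h3 := hdA v hvB
          have h4 := hsemi v hvB
          obtain ⟨t, ht, hvt⟩ := exists_of_one_le C (show 1 ≤ dg C B v by omega)
          by_cases htu : t = u
          · rw [htu] at hvt
            exact hnoseg v hvB u huB (by omega) hu hvt
          · exact hcon (one_le_dg C (mem_erase.mpr ⟨htu, ht⟩) hvt)
        exact h1.trans (dg_mono C (fun t ht => mem_insert_of_mem (mem_insert_of_mem ht)) v)
  · -- the case `w0 ≠ w`
    have hcard1 : (A.erase w).card + 1 = h := by rw [card_erase_add_one hw, hA]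
    have hz2 : z ∉ A.erase w := fun hc => hzA (mem_of_mem_erase hc)
    refine hbad.nobal (insert z (A.erase w)) (insert w B) ?_ ?_ ?_ ?_ ?_
    · rw [disjoint_left]
      intro t ht ht'
      simp only [mem_insert, mem_erase] at ht ht'
      rcases ht with rfl | ⟨h1, h2⟩
      · rcases ht' with h3 | h3
        · exact hzw h3
        · exact hzB h3
      · rcases ht' with h3 | h3
        · exact h1 h3
        · exact hBc t h3 h2
    · rw [card_insert_of_notMem hz2]
      omega
    · rw [card_insert_of_notMem hwB]
      omega
    · intro v hv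
      rcases mem_insert.mp hv with rfl | hv
      · exact one_le_dg C (mem_insert_of_mem (mem_erase.mpr ⟨hww, hw0⟩)) hzw0
      · obtain ⟨t, ht, htv⟩ := exists_mem_ne (show 1 < (A.erase w).card by omega) v
        exact one_le_dg C (mem_insert_of_mem ht)
          (hcomp v (mem_of_mem_erase hv) t (mem_of_mem_erase ht) htv.symm)
    · intro v hv
      rcases mem_insert.mp hv with rfl | hv
      · exact one_le_dg C (mem_insert_of_mem huB) huw.symm
      · by_cases h1 : 1 ≤ dg C A v
        · exact one_le_dg C (mem_insert_self _ _) (hadj v hv h1)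
        · have h2 := hsemi v hv
          have h3 : 1 ≤ dg C B v := by omega
          exact h3.trans (dg_mono C (fun t ht => mem_insert_of_mem ht) v)

end Pool.Agent.Lib.MP270b6b.TN
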