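import Pool.Agent.Lib.MP_270b6b_co.TN.Spec

set_option autoImplicit false

namespace Pool.Agent.Lib.MP270b6b.TN

open Finset

theorem specFOU (hCHR : SpecCHR) : SpecFOU := by
  intro V _ _ C _ S hS
  obtain ⟨x, hx, y, hy, hxy, hc⟩ := hCHR V C S 1 (by simpa using hS)
  obtain ⟨u, hu, v, hv, huv⟩ := one_lt_card.mp (by omega :
    1 < (S.filter (fun w => C.Adj x w ∧ C.Adj y w)).card)
  rw [mem_filter] at hu hv
  obtain ⟨huS, hxu, hyu⟩ := hu
  obtain ⟨hvS, hxv, hyv⟩ := hv
  have h1 := C.ne_of_adj hxu
  have h2 := C.ne_of_adj hxv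
  have h3 := C.ne_of_adj hyu
  have h4 := C.ne_of_adj hyv
  refine ⟨{x, y, u, v}, ?_, ?_, ?_⟩
  · intro z hz
    simp only [mem_insert, mem_singleton] at hz
    rcases hz with rfl | rfl | rfl | rfl <;> assumption
  · rw [card_insert_of_notMem, card_insert_of_notMem, card_insert_of_notMem, card_singleton]
    · simpa using huv
    · simp only [mem_insert, mem_singleton]
      tauto
    · simp only [mem_insert, mem_singleton]
      tauto
  · intro z hz
    have mx : x ∈ ({x, y, u, v} : Finset V) := by simp
    have my : y ∈ ({x, y, u, v} : Finset V) := by simp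
    have mu : u ∈ ({x, y, u, v} : Finset V) := by simp
    have mv : v ∈ ({x, y, u, v} : Finset V) := by simp
    simp only [mem_insert, mem_singleton] at hz
    rcases hz with rfl | rfl | rfl | rfl
    · exact two_le_dg C mu mv huv hxu hxv
    · exact two_le_dg C mu mv huv hyu hyv
    · exact two_le_dg C mx my hxy hxu.symm hyu.symm
    · exact two_le_dg C mx my hxy hxv.symm hyv.symm

end Pool.Agent.Lib.MP270b6b.TN
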