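import Pool.Agent.Lib.MP_270b6b_co.TN.Base

/-!
# MP_270b6b_co, the case `m = 2 n + 2`.  Specification (captain: helper87)

THEOREM.  For every `n ≥ 31` every graph on `2 n + 2` vertices with exactly `e(n)` edges has property
`P_n`.  (With the landed FromTwoNPlusThree: for `n ≥ 31`, `m ≥ 2 n + 2` the assertion of Q1 holds for
`(n, m)` if and only if `m = 2 n + 2`.)

Let `h = n + 1` and let `C` be the complement: `2 h` vertices, `h (h + 1) / 2 + 1` edges.  Wanted: a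
set of size `h + 1` in which every vertex has `≥ 2` neighbours (`Core`), or a partition into two sets
of size `h` without isolated vertices.  `Bad C h`: neither exists.

IDEA.  Let `A` be a flexible set (core subsets of all sizes from `4` to `|A|`, `Flex`) of maximum size
`a ≤ h`.  Then every vertex outside `A` has at most one neighbour in `A` (`closed`), so `Aᶜ` has many
edges, and if `a ≤ h - 2` a small core set `B ⊆ Aᶜ` makes `A ∪ B` flexible, or gives a core set of size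
`h + 1`.  So `a = h - 1` (TON) or `a = h` (ZER, ZA, ZB).  `semi-core` below: a set `B ⊆ Aᶜ` such that
every vertex of `B` has at least two neighbours in `B ∪ A`; its vertices with a neighbour in `A` are
its ends, these neighbours are its feet.

Notation in the docstrings: `dg S x` for `dg C S x`, `E2 S` for `E2 C S` (twice the number of edges
inside `S`), `N = |S|`.  All modules are independent: file `TN/XXX.lean`, `import
Pool.Agent.Lib.MP_270b6b_co.TN.Spec`, namespace `Pool.Agent.Lib.MP270b6b.TN`,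
`theorem specXXX (hYYY : SpecYYY) ... : SpecXXX`, own lemmas in a namespace `XXXM`.  Toolkit:
`Base.lean` (`E2_erase`, `E2_union`, `E2_compl`, `E2_even`, `E2_le`, `dg_sub`, `dg_add_card`,
`dg_ge_of_miss`, `core_union`, `Core.three`, `dg_erase`, `exists_of_one_le`, `two_le_dg`, ...).
-/

set_option autoImplicit false
set_option linter.unusedSectionVars false

namespace Pool.Agent.Lib.MP270b6b.TN

open Finset

/-- **AVG** (70 lines).  Averaging.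
Proof.  Downward induction on `q` (write `q = N - i`, induction on `i`); `q = N`: `T = S`.  Step from
`q + 1` to `q` (`q + 1 ≤ N`): let `T`, `|T| = q + 1`, be given and `v ∈ T` with `dg T v` minimal
(`exists_min_image`), so `(q + 1) * dg T v ≤ E2 T`.  `T' = T.erase v`: `E2 T = E2 T' + 2 * dg T v`
(`E2_erase`), so `(q + 1) * E2 T' + 2 * E2 T ≥ (q + 1) * E2 T`, i.e. `(q + 1) * E2 T' ≥ (q - 1) * E2 T`
(for `q ≥ 1`; for `q = 0` the claim is trivial).  Multiply by `N (N - 1)`: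
`(q + 1) * (E2 T' * (N (N - 1))) ≥ (q - 1) * (E2 S * ((q + 1) * q)) = (q + 1) * (E2 S * (q (q - 1)))`;
cancel `q + 1`. -/
def SpecAVG : Prop :=
  ∀ (V : Type) [Fintype V] [DecidableEq V] (C : SimpleGraph V) [DecidableRel C.Adj]
    (S : Finset V) (q : ℕ), q ≤ S.card → ∃ T ⊆ S, T.card = q ∧
    E2 C S * (q * (q - 1)) ≤ E2 C T * (S.card * (S.card - 1))

/-- **COR** (50 lines).  A set with at least as many edges as vertices contains a core set.
Proof.  Take `B ⊆ T` nonempty with `2 |B| ≤ E2 B` of minimum cardinality.  If `v ∈ B` has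
`dg B v ≤ 1`, then `E2 (B.erase v) ≥ E2 B - 2 ≥ 2 |B.erase v|` and `B.erase v` is nonempty (if
`B = {v}` then `E2 B = 0`): contradiction. -/
def SpecCOR : Prop :=
  ∀ (V : Type) [Fintype V] [DecidableEq V] (C : SimpleGraph V) [DecidableRel C.Adj]
    (T : Finset V), T.Nonempty → 2 * T.card ≤ E2 C T → ∃ B ⊆ T, B.Nonempty ∧ Core C B

/-- **SML** (30 lines, uses AVG, COR).  Small core sets.
Proof.  AVG gives `T`, `|T| = q`, with `E2 T * (N (N - 1)) ≥ E2 S * (q (q - 1)) ≥ 2 N (N - 1) q`, so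
`E2 T ≥ 2 q` (`N (N - 1) > 0`); then COR. -/
def SpecSML : Prop :=
  ∀ (V : Type) [Fintype V] [DecidableEq V] (C : SimpleGraph V) [DecidableRel C.Adj]
    (S : Finset V) (q : ℕ), 2 ≤ q → q ≤ S.card →
    2 * (S.card * (S.card - 1)) ≤ E2 C S * (q - 1) →
    ∃ B ⊆ S, B.Nonempty ∧ Core C B ∧ B.card ≤ q

/-- **CHR** (100 lines).  Two vertices with many common neighbours.
Proof.  Suppose that all pairs `x ≠ y` of `S` have at most `c` common neighbours in `S`.  Double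
counting: `∑ w ∈ S, (dg S w)^2 = ∑ x ∈ S, ∑ y ∈ S, #{w ∈ S | w ~ x, w ~ y}`; the terms with `x = y`
give `E2 S`, the `N (N - 1)` other terms are `≤ c`.  Cauchy-Schwarz
(`sq_sum_le_card_mul_sum_sq`): `(E2 S)^2 ≤ N * ∑ w ∈ S, (dg S w)^2 ≤ N (E2 S + c N (N - 1))`:
contradiction. -/
def SpecCHR : Prop :=
  ∀ (V : Type) [Fintype V] [DecidableEq V] (C : SimpleGraph V) [DecidableRel C.Adj]
    (S : Finset V) (c : ℕ),
    S.card * (E2 C S + c * (S.card * (S.card - 1))) < E2 C S ^ 2 →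
    ∃ x ∈ S, ∃ y ∈ S, x ≠ y ∧ c + 1 ≤ (S.filter (fun w => C.Adj x w ∧ C.Adj y w)).card

/-- **FOU** (40 lines, uses CHR).  A core set of size four.
Proof.  CHR with `c = 1`: `x ≠ y` with two common neighbours `u ≠ v` in `S` (all four different by
`C.ne_of_adj`); `B = {x, y, u, v}`: `two_le_dg` four times. -/
def SpecFOU : Prop :=
  ∀ (V : Type) [Fintype V] [DecidableEq V] (C : SimpleGraph V) [DecidableRel C.Adj]
    (S : Finset V), S.card * (E2 C S + S.card * (S.card - 1)) < E2 C S ^ 2 →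
    ∃ B ⊆ S, B.card = 4 ∧ Core C B

/-- **SEE** (90 lines, uses CHR).  A flexible set of size seven.
Proof.  CHR with `S = univ`, `c = 4`: `N = 2 h`, `E2 = h (h + 1) + 2`; for `h ≥ 32`
`2 h (h (h + 1) + 2 + 4 (2 h (2 h - 1))) < (h (h + 1) + 2)^2` (write `h = 32 + k`, `nlinarith` or
`ring_nf` and positivity).  So `x ≠ y` have a set `W` of 5 common neighbours
(`exists_subset_card_eq`).  `A = {x, y} ∪ W` (`x, y ∉ W`), `|A| = 7`.  For `4 ≤ s ≤ 7` take `W' ⊆ W`,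
`|W'| = s - 2 ≥ 2`, `T = {x, y} ∪ W'`: every `w ∈ W'` is adjacent to `x` and `y`, and `x`, `y` are
adjacent to two vertices of `W'`. -/
def SpecSEE : Prop :=
  ∀ (V : Type) [Fintype V] [DecidableEq V] (C : SimpleGraph V) [DecidableRel C.Adj] (h : ℕ),
    32 ≤ h → Bad C h → ∃ A : Finset V, A.card = 7 ∧ Flex C A

/-- **EXT** (30 lines).  Adding a core set to a flexible set.
Proof.  `T' ⊆ A` core with `|T'| = s - |B|` (between `4` and `|A|`); `T = T' ∪ B` (`core_union`,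
`card_union_of_disjoint`). -/
def SpecEXT : Prop :=
  ∀ (V : Type) [Fintype V] [DecidableEq V] (C : SimpleGraph V) [DecidableRel C.Adj]
    (A B : Finset V), Flex C A → Core C B → Disjoint A B → ∀ s : ℕ, B.card + 4 ≤ s →
    s ≤ A.card + B.card → ∃ T ⊆ A ∪ B, T.card = s ∧ Core C T

/-- **GAR** (60 lines).  Arithmetic for GRO (`E` is a lower bound for `E2 Aᶜ`).
Proof.  Write everything with `t = h - a ≥ 2`: `|Aᶜ| = h + t`, `E + 0 ≥ t (2 h - t - 3) + 2`.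
(1) `2 a ≥ h + 3`, i.e. `2 t ≤ h - 3`: `2 (h + t) (h + t - 1) ≤ (t (2 h - t - 3) + 2) (h - 4)`.  For
`t = 2`: `2 (h + 2) (h + 1) ≤ (4 h - 8) (h - 4)`, i.e. `2 h² - 30 h + 28 ≥ 0`.  In general the difference
is concave in `t`: with `u = t - 2 ≥ 0`, `v = h - 3 - 2 t ≥ 0` substitute `t = u + 2`,
`h = 2 u + v + 7` and use `h ≥ 32` (`nlinarith`).
(2) `12 ≤ a`, `2 a ≤ h + 2`: `2 (2 h - a) (2 h - a - 1) ≤ ((h - a) (h + a - 3) + 2) (a - 4)`: put
`a = 12 + x`, `h = 2 a - 2 + y = 22 + 2 x + y`; all coefficients of the difference are nonnegative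
(if not, use `h ≥ 32`).  (3) `7 ≤ a ≤ 11`: `interval_cases a`, `N = 2 h - a`,
`N (E + N (N - 1)) < E²` is increasing in `E` for `E ≥ N`: with `E = (h - a) (h + a - 3) + 2 + e`,
`h = 32 + k`. -/
def SpecGAR : Prop :=
  ∀ h a E : ℕ, 32 ≤ h → 7 ≤ a → a + 2 ≤ h →
    h * (h + 1) + 2 ≤ a * (a - 1) + E + 2 * (2 * h - a) →
    (h + 3 ≤ 2 * a → 2 * ((2 * h - a) * (2 * h - a - 1)) ≤ E * (h - 3 - 1)) ∧
    (12 ≤ a → 2 * a ≤ h + 2 → 2 * ((2 * h - a) * (2 * h - a - 1)) ≤ E * (a - 3 - 1)) ∧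
    (a ≤ 11 → (2 * h - a) * (E + (2 * h - a) * (2 * h - a - 1)) < E ^ 2)

/-- **GRO** (120 lines, uses SML, FOU, SEE, EXT, GAR).  The large flexible set.
Proof.  By SEE there are flexible sets with `7 ≤ |A| ≤ h`; take one with `|A| = a` maximal
(`exists_max_image` on `univ.powerset`, classical).  Closed: if `u ∉ A` and `dg A u ≥ 2`, then
`insert u A` is core (`A` is core by `Flex.core`), hence flexible; if `a + 1 ≤ h` contradiction, if
`a + 1 = h + 1` contradiction to `nocore`.  Suppose `a ≤ h - 2`.  `E2_compl`: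
`h (h + 1) + 2 = E2 A + E2 Aᶜ + 2 * ∑ u ∈ Aᶜ, dg A u ≤ a (a - 1) + E2 Aᶜ + 2 (2 h - a)`.  GAR gives
with SML (`S = Aᶜ`, `|Aᶜ| = 2 h - a`; `q = h - 3` if `2 a ≥ h + 3`, `q = a - 3` if `2 a ≤ h + 2` and
`a ≥ 12`) or FOU (`a ≤ 11`) a nonempty core set `B ⊆ Aᶜ`, `b = |B| ≥ 3` (`Core.three`), with
`b ≤ h - 3` and (`b ≤ a - 3` or `b + a ≥ h + 1`) (in the first case `b ≥ h + 1 - a` or
`b ≤ h - a ≤ a - 3`).  If `b + a ≥ h + 1`: EXT with `s = h + 1` contradicts `nocore`.  Otherwise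
`b ≤ a - 3` and `A ∪ B` is flexible (sizes `≤ a` from `A`, sizes `≥ a + 1 ≥ b + 4` from EXT) of size
`≤ h`: contradiction. -/
def SpecGRO : Prop :=
  ∀ (V : Type) [Fintype V] [DecidableEq V] (C : SimpleGraph V) [DecidableRel C.Adj] (h : ℕ),
    32 ≤ h → Bad C h → ∃ A : Finset V, Flex C A ∧ (A.card = h ∨ A.card + 1 = h) ∧
      ∀ u, u ∉ A → dg C A u ≤ 1

/-- **TON** (200 lines, uses SML, EXT).  The case `|A| = h - 1`.
Proof.  `D = Aᶜ`, `|D| = h + 1`, `A` is core (`Flex.core`).  `E2 A ≤ (h - 1) (h - 2)`; let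
`E2 A + 2 rb = (h - 1) (h - 2)` (`E2_even`).  `S0 = {u ∈ D | dg A u = 0}`, `s0 = |S0|`,
`S1 = D \ S0` (`dg A u = 1`), `∑ u ∈ D, dg A u = h + 1 - s0`; `E2_compl` gives
`E2 D = 2 (h - 1 + rb + s0)`.
(a) There are no adjacent `u, u' ∈ S1`: `A ∪ {u, u'}` would be a core set of size `h + 1`.
(b) `rb + s0 ≤ 6`: otherwise `E2 D ≥ 2 (h + 6)` and `2 (h + 1) h ≤ 2 (h + 6) (h - 4)`, SML with
`q = h - 3` gives a core set `B ⊆ D`, `3 ≤ |B| ≤ h - 3`, and EXT with `s = h + 1` a core set of size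
`h + 1`.
(c) Some `z ∈ S0` has `dg S1 z ≥ 2`: otherwise
`E2 D = E2 S0 + E2 S1 + 2 * ∑ z ∈ S0, dg S1 z ≤ 6 * 5 + 0 + 2 * 6 = 42 < 2 (h - 1)` (`E2_union`).
Let `u ≠ u'` be two neighbours of `z` in `S1` and `f, f' ∈ A` neighbours of `u, u'`.  Choose
`w ∈ A`, `w ≠ f, f'` (`|A| ≥ 31`).  `S = (A.erase w) ∪ {z, u, u'}`, `|S| = h - 2 + 3`.  `S` is core:
for `x ∈ A`, `dg A x ≥ (h - 1) - 1 - rb ≥ h - 8` (`dg_ge_of_miss`), so `dg (A.erase w) x ≥ h - 9 ≥ 2`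
(`dg_erase_ge`); `u` has the neighbours `z`, `f`; `u'` has `z`, `f'`; `z` has `u`, `u'`. -/
def SpecTON : Prop :=
  ∀ (V : Type) [Fintype V] [DecidableEq V] (C : SimpleGraph V) [DecidableRel C.Adj] (h : ℕ),
    32 ≤ h → Bad C h → ∀ A : Finset V, Flex C A → A.card + 1 = h →
    (∀ u, u ∉ A → dg C A u ≤ 1) → False

/-- The situation in the case `|A| = h`: `rb` is the number of missing edges of `A`. -/
structure Zero {V : Type} [Fintype V] [DecidableEq V] (C : SimpleGraph V) [DecidableRel C.Adj]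
    (h : ℕ) (A : Finset V) (rb : ℕ) : Prop where
  big : 32 ≤ h
  bad : Bad C h
  card : A.card = h
  core : Core C A
  closed : ∀ u, u ∉ A → dg C A u ≤ 1
  miss : E2 C A + 2 * rb = h * (h - 1)
  edges : E2 C Aᶜ + 2 * ∑ u ∈ Aᶜ, dg C A u = 2 * (h + 1 + rb)
  large : ∀ B ⊆ Aᶜ, B.Nonempty → Core C B → h - 1 ≤ B.card
  iso : ∃ z ∈ Aᶜ, dg C Aᶜ z = 0

/-- **ZER** (150 lines, uses AVG, COR, SML, EXT).  The case `|A| = h`: the situation `Zero`.
Proof.  `rb` from `E2_le`, `E2_even`.  `edges`: `E2_compl` and `h (h + 1) + 2 - h (h - 1) = 2 h + 2`.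
`iso`: otherwise `nobal` for `A`, `Aᶜ` (`|Aᶜ| = h`; `A` is core).  Let `B ⊆ Aᶜ` be core and nonempty,
`b = |B| ≥ 3`.  `b ≤ h - 3` is impossible by EXT with `s = h + 1`.  So by SML (`S = Aᶜ`, `q = h - 3`,
`2 h (h - 1) ≤ 2 (h + 4) (h - 4)`) `E2 Aᶜ < 2 (h + 4)`; as `∑ u ∈ Aᶜ, dg A u ≤ h`, `edges` gives
`2 (1 + rb) ≤ E2 Aᶜ`, so `rb ≤ h + 2`.  `b = h - 2` is impossible: AVG for `S = A`, `q = 3` gives
`T ⊆ A`, `|T| = 3`, `E2 A * 6 ≤ E2 T * (h (h - 1))`; `E2 A ≥ h (h - 1) - 2 (h + 2) > (2/3) h (h - 1)`,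
so `E2 T > 4`, so `E2 T ≥ 6` (`E2_even`), so COR gives a core `T' ⊆ T`, `|T'| ≥ 3`, `T' = T`; then
`T ∪ B` is a core set of size `h + 1`. -/
def SpecZER : Prop :=
  ∀ (V : Type) [Fintype V] [DecidableEq V] (C : SimpleGraph V) [DecidableRel C.Adj] (h : ℕ),
    32 ≤ h → Bad C h → ∀ A : Finset V, Flex C A → A.card = h →
    (∀ u, u ∉ A → dg C A u ≤ 1) → ∃ rb, Zero C h A rb

/-- **LEK** (120 lines).  A subset of a nearly complete set with prescribed feet `w1`, `w2`.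
Proof.  Every `x ∈ A` has `h ≤ dg A x + rb + 1` (`dg_ge_of_miss`).
Case 1: there is `w ∈ A`, `w ≠ w1, w2`, with `dg A w + rb + 1 = h`.  Then
`E2 (A.erase w) = (h - 1) (h - 2)` (`E2_erase`), so `A.erase w` is complete
(`dg_ge_of_miss` with `rb = 0`): `dg (A.erase w) x ≥ h - 2` for `x ∈ A.erase w`.  Let
`{w1, w2} ⊆ A' ⊆ A.erase w`, `|A'| = p` (`exists_subsuperset_card_eq`): `dg A' x ≥ p - 1` by
`dg_add_card`.  For `x ≠ w1, w2` in `A'`: `p ≥ 3` (if `w1 ≠ w2` as `x, w1, w2 ∈ A'`; otherwise by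
hypothesis).  If `w1 ≠ w2`: `p ≥ 2`.
Case 2: otherwise `dg A x + rb ≥ h` for all `x ≠ w1, w2`.  Take any `A'` with `{w1, w2} ⊆ A' ⊆ A`,
`|A'| = p`.  For `x ≠ w1, w2`: `dg A' x ≥ dg A x + p - h ≥ p - rb ≥ 2`.  For the feet:
`dg A' w ≥ dg A w + p - h ≥ p - rb - 1 ≥ 1`. -/
def SpecLEK : Prop :=
  ∀ (V : Type) [Fintype V] [DecidableEq V] (C : SimpleGraph V) [DecidableRel C.Adj]
    (h rb p : ℕ) (A : Finset V), A.card = h → E2 C A + 2 * rb = h * (h - 1) →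
    ∀ w1 ∈ A, ∀ w2 ∈ A, rb + 2 ≤ p → p + 1 ≤ h → (w1 ≠ w2 ∨ 3 ≤ p) →
    ∃ A' ⊆ A, A'.card = p ∧ w1 ∈ A' ∧ w2 ∈ A' ∧
      (∀ x ∈ A', x ≠ w1 → x ≠ w2 → 2 ≤ dg C A' x) ∧
      (w1 ≠ w2 → 1 ≤ dg C A' w1 ∧ 1 ≤ dg C A' w2)

/-- **EAR** (120 lines, uses LEK).  A semi-core with two ends gives a core set of size `h + 1`.
Proof.  Exactly two vertices `u1 ≠ u2` of `B` have `dg A u = 1`, with neighbours `w1, w2 ∈ A`, the
others have `dg A u = 0`; so `2 ≤ |B|`.  LEK with `p = h + 1 - |B|` (`rb + 2 ≤ p ≤ h - 1`; `w1 ≠ w2`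
or `p ≥ 3`: if `w1 = w2` then the last alternative of the hypothesis fails, because a vertex of `A`
with a neighbour in `B` is `w1` or `w2`).  `S = A' ∪ B`, `|S| = h + 1`.  `S` is core: `v ∈ B`: if
`dg A v = 0` then `dg B v ≥ 2`; if `v = u1`: `dg B v ≥ 1` and the neighbour `w1 ∈ A'` (`dg_union`).
`x ∈ A'`, `x ≠ w1, w2`: LEK.  `x = w1 ≠ w2`: one neighbour in `A'`, and `u1`.  `x = w1 = w2`: the
neighbours `u1 ≠ u2`. -/
def SpecEAR : Prop :=
  ∀ (V : Type) [Fintype V] [DecidableEq V] (C : SimpleGraph V) [DecidableRel C.Adj]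
    (h rb : ℕ) (A B : Finset V), A.card = h → E2 C A + 2 * rb = h * (h - 1) → Disjoint A B →
    (∀ v ∈ B, dg C A v ≤ 1) → (∀ v ∈ B, 2 ≤ dg C B v + dg C A v) → ∑ v ∈ B, dg C A v = 2 →
    B.card + rb + 1 ≤ h →
    (B.card + 2 ≤ h ∨ ∃ x ∈ A, ∃ y ∈ A, x ≠ y ∧ 1 ≤ dg C B x ∧ 1 ≤ dg C B y) →
    ∃ S : Finset V, S.card = h + 1 ∧ Core C S

/-- **SEM** (90 lines, uses COR).  Existence of a semi-core with two ends.
Proof.  Let `B ⊆ S` be of minimum cardinality with `2 |B| < E2 B + 2 * ∑ v ∈ B, dg A v`.  `B` is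
nonempty.  For `v ∈ B`: `B.erase v` does not have the property, i.e. (`E2_erase`)
`E2 B + 2 * ∑ B ≤ 2 (|B| - 1) + 2 dg B v + 2 dg A v`; with `2 |B| < E2 B + 2 * ∑ B`:
`2 ≤ dg B v + dg A v` (note that `E2 B` is even).  Let `k = |B|`, `σ = ∑ v ∈ B, dg A v`,
`E2 B + 2 σ = 2 k + 2 W`, `W ≥ 1`; sum over `v ∈ B`: `k (2 k + 2 W) ≤ 2 k (k - 1) + 2 E2 B + 2 σ =
2 k (k - 1) + 4 k + 4 W - 2 σ`, i.e. `k W + σ ≤ k + 2 W`, so `σ ≤ 2` (as `k ≥ 2`: `(k - 2) (W - 1) ≥ 0`;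
`k = 1`: `E2 B = 0`, `σ ≥ 2`, but `dg A v ≤ 1`).
If `σ ≤ 1` then `E2 B ≥ 2 k` (`E2_even`, `2 k < E2 B + 2 σ`), so COR gives a core subset of `B`:
contradiction to the last hypothesis. -/
def SpecSEM : Prop :=
  ∀ (V : Type) [Fintype V] [DecidableEq V] (C : SimpleGraph V) [DecidableRel C.Adj]
    (A S : Finset V), (∀ v ∈ S, dg C A v ≤ 1) →
    2 * S.card < E2 C S + 2 * ∑ v ∈ S, dg C A v →
    (∀ B ⊆ S, B.Nonempty → ¬ Core C B) →
    ∃ B ⊆ S, (∀ v ∈ B, 2 ≤ dg C B v + dg C A v) ∧ ∑ v ∈ B, dg C A v = 2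

/-- **EXC** (200 lines).  The exceptional case: `A` complete, one isolated vertex `z` of `Aᶜ`,
and the rest `B` of `Aᶜ` is a semi-core with two ends attached to the same vertex `w` of `A`.
Proof.  `|B| = h - 1`, `Aᶜ = insert z B`.  `A` is complete (`dg_ge_of_miss`, `rb = 0`: `dg A x ≥ h - 1`).
`z` has exactly one neighbour `w0 ∈ A` (`hz`).
Case `w0 ≠ w`: `P = insert z (A.erase w)`, `Q = insert w B`; both have size `h`; `z` is adjacent to `w0`;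
`x ∈ A.erase w` has `dg (A.erase w) x ≥ h - 2`; `v ∈ B` has a neighbour in `B` (if `dg A v = 0`) or in
`{w}`; `w` has a neighbour in `B` (as `∑ = 2`, there is `v ∈ B` with `dg A v = 1`, its neighbour is
`w` by hypothesis `hw`).  Contradiction to `nobal`.
Case `w0 = w`: let `u1 ∈ B` be a vertex with `dg A u1 = 1` (adjacent to `w`), `x ≠ y` two vertices of
`A.erase w`.  `P = insert z (insert u1 ((A.erase x).erase y))`, `Q = insert x (insert y (B.erase u1))`,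
sizes `h - 2 + 2 = h` and `2 + (h - 2) = h`.  In `P`: `z ~ w`, `u1 ~ w`, the vertices of
`(A.erase x).erase y` form a complete graph of size `h - 2`.  In `Q`: `x ~ y`; `v ∈ B.erase u1`:
if `v` has no neighbour in `B.erase u1` then `dg B v ≤ 1`, so `dg B v = 1`, `dg A v = 1` and
`v ~ u1`; so `u1`, `v` are the two ends of `B` (`∑ = 2`), and all others have `dg A = 0`; the semi-core
`B` has `|B| = h - 1 ≥ 31`, so there is a third vertex; use `noseg` (hypothesis: no two adjacent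
vertices of `B` have both `dg A = 1`): contradiction. -/
def SpecEXC : Prop :=
  ∀ (V : Type) [Fintype V] [DecidableEq V] (C : SimpleGraph V) [DecidableRel C.Adj]
    (h : ℕ) (A B : Finset V) (z w : V), 32 ≤ h → Bad C h → A.card = h → E2 C A = h * (h - 1) →
    z ∉ A → z ∉ B → Aᶜ = insert z B → w ∈ A →
    (∀ v ∈ B, 2 ≤ dg C B v + dg C A v) → ∑ v ∈ B, dg C A v = 2 →
    (∀ v ∈ B, ∀ x ∈ A, C.Adj v x → x = w) →
    (∀ v ∈ B, ∀ v' ∈ B, 1 ≤ dg C A v → 1 ≤ dg C A v' → ¬ C.Adj v v') →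
    1 ≤ dg C A z → False

/-- **ZA** (120 lines, uses COR, SEM, EAR, EXC).  `Zero` without core sets in `Aᶜ`.
Proof.  `D = Aᶜ`, `|D| = h`, `z ∈ D` with `dg D z = 0`.  `s0 = #{u ∈ D | dg A u = 0}`,
`∑ u ∈ D, dg A u = h - s0` (`closed`).  `edges`: `E2 D = 2 (1 + rb + s0)`.  As `D.erase z` contains no
core set, COR gives `E2 (D.erase z) < 2 (h - 1)`, so `E2 D = E2 (D.erase z) ≤ 2 (h - 2)` (`E2_even`,
`E2_erase`), so `rb + s0 + 3 ≤ h`.  SEM with `S = D` (`2 h < 2 (h + 1 + rb)`): `B ⊆ D`.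
`z ∉ B` (`dg B z = 0`, `dg A z ≤ 1`).  `|B| = 2 + #{u ∈ B | dg A u = 0} ≤ 2 + s0 ≤ h - 1 - rb`.
If `|B| + 2 ≤ h`, or two different vertices of `A` have neighbours in `B`: EAR contradicts `nocore`.
Otherwise `|B| = h - 1`, `B = D.erase z`, `rb = 0`, `s0 + 3 = h` and all `u ∈ D` with `dg A u = 0` are in
`B`, so `dg A z = 1`; all neighbours in `A` of vertices of `B` are equal to one `w`.
If `v ≠ v' ∈ B` are adjacent with `dg A = 1` both: `B' = {v, v'}` is a semi-core with `∑ = 2`,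
`|B'| + 2 ≤ h`: EAR contradicts `nocore`.  EXC. -/
def SpecZA : Prop :=
  ∀ (V : Type) [Fintype V] [DecidableEq V] (C : SimpleGraph V) [DecidableRel C.Adj]
    (h rb : ℕ) (A : Finset V), Zero C h A rb → ∃ Y ⊆ Aᶜ, Y.Nonempty ∧ Core C Y

/-- **ZB** (100 lines, uses COR).  `Zero` with a core set `Y` in `Aᶜ`: structure.
Proof.  Let `z ∈ Aᶜ` be isolated in `Aᶜ`.  `z ∉ Y`, `|Y| ≥ h - 1` (`large`), so `|Y| = h - 1` and
`Aᶜ = insert z Y`.  For `v ∈ Y` the set `Y.erase v` contains no nonempty core set (`large`), so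
`E2 (Y.erase v) < 2 (h - 2)` by COR, so `E2 (Y.erase v) ≤ 2 (h - 3)` (`E2_even`) and
`E2 Y ≤ 2 (h - 3) + 2 * dg Y v`.  Sum over `v ∈ Y`: `(h - 1) * E2 Y ≤ 2 (h - 1) (h - 3) + 2 * E2 Y`, so
`E2 Y ≤ 2 (h - 1)`.  As all `dg Y v ≥ 2`: `dg Y v = 2` for all `v ∈ Y` and `E2 Y = 2 (h - 1)`.
`E2 Aᶜ = E2 Y` (`E2_erase`), `edges`: `∑ v ∈ Y, dg A v + dg A z = rb + 2`.  In particular
`rb ≤ h - 2` (as the sum is `≤ h`). -/
def SpecZB : Prop :=
  ∀ (V : Type) [Fintype V] [DecidableEq V] (C : SimpleGraph V) [DecidableRel C.Adj]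
    (h rb : ℕ) (A : Finset V), Zero C h A rb → ∀ Y ⊆ Aᶜ, Y.Nonempty → Core C Y →
    ∃ z, z ∉ A ∧ z ∉ Y ∧ Aᶜ = insert z Y ∧ dg C Aᶜ z = 0 ∧ (∀ v ∈ Y, dg C Y v = 2) ∧
      E2 C Y = 2 * (h - 1) ∧ (∑ v ∈ Y, dg C A v) + dg C A z = rb + 2

/-- **ZC** (200 lines).  The case `dg A z = 1`: a balanced partition.
Proof.  `w0 ∈ A` the neighbour of `z`.  `Y` is nonempty with `dg Y = 2`: let `p ∈ Y` and `q ∈ Y`
adjacent to `p`.  `rb ≤ h - 2`.
Choice of `X = {x1, x2, x3} ⊆ A.erase w0` with `x1 ~ x2 ~ x3` and such that every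
`x ∈ A \ X`, `x ≠ w0`, has `dg A x ≥ 4`: two different vertices `x, x'` of `A` cannot both have
`dg A ≤ 3` (else `E2 A ≤ E2 ((A.erase x).erase x') + 2 * 3 + 2 * 3 ≤ (h - 2) (h - 3) + 12`, but
`E2 A = h (h - 1) - 2 rb ≥ h (h - 1) - 2 h + 4`, contradiction for `h ≥ 32`).  Let `x1 ∈ A.erase w0` be
the vertex with `dg A x1 ≤ 3` if there is one in `A.erase w0`, otherwise arbitrary in `A.erase w0`;
`dg A x1 ≥ 2` (core) gives a neighbour `x2 ∈ A`, `x2 ≠ w0`; then `dg A x2 ≥ 4` gives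
`x3 ∈ A`, `x3 ~ x2`, `x3 ≠ x1, w0`.
`P = (A \ X) ∪ {z, p, q}`, `Q = X ∪ (Y \ {p, q})`, sizes `h - 3 + 3` and `3 + (h - 1 - 2)`.
`P`: `z ~ w0`, `w0 ~ z` (`w0 ∈ A \ X`), `p ~ q`, every other `x ∈ A \ X` has
`dg (A \ X) x ≥ 4 - 3` (`dg_sub`).  `Q`: `X` is a path; `v ∈ Y \ {p, q}`: if it has no neighbour in
`Y \ {p, q}`, then its two neighbours in `Y` are `p`, `q`, so `{v, p, q}` is a core set of size 3 in
`Aᶜ`: contradiction to `large`.  `nobal`. -/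
def SpecZC : Prop :=
  ∀ (V : Type) [Fintype V] [DecidableEq V] (C : SimpleGraph V) [DecidableRel C.Adj]
    (h rb : ℕ) (A : Finset V), Zero C h A rb → ∀ Y ⊆ Aᶜ, Y.Nonempty → ∀ z, z ∉ A → z ∉ Y →
    Aᶜ = insert z Y → (∀ v ∈ Y, dg C Y v = 2) → rb + 2 ≤ h → 1 ≤ dg C A z → False

/-- **ZD** (120 lines, uses SEM, EAR).  The case `dg A z = 0`.
Proof.  `|Y| = h - 1`, `E2 Y = 2 (h - 1)`, `∑ v ∈ Y, dg A v = rb + 2`, so `Y` has `h - 3 - rb` vertices
with `dg A v = 0` (`rb + 3 ≤ h`).  Choose `v ∈ Y` with `dg A v = 0` if there is one, otherwise any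
`v ∈ Y` (then `rb + 3 = h`, so `rb ≥ 1`).  `S = Y.erase v`: `E2 S = 2 (h - 1) - 4` (`E2_erase`),
`2 |S| = 2 (h - 2) < 2 (h - 3) + 2 (rb + 2 - dg A v) = E2 S + 2 * ∑ u ∈ S, dg A u` (as `dg A v = 0` or
`rb ≥ 1`).  `S` contains no nonempty core set (`large`, `|S| = h - 2`).  SEM: `B ⊆ S`, a semi-core with
`∑ = 2`, so `|B| = 2 + #{u ∈ B | dg A u = 0}`.  If `dg A v = 0`: `|B| ≤ 2 + (h - 3 - rb - 1)`; otherwise
`|B| = 2` and `rb + 3 = h`.  In both cases `|B| + rb + 1 ≤ h` and `|B| + 2 ≤ h`: EAR contradicts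
`nocore`. -/
def SpecZD : Prop :=
  ∀ (V : Type) [Fintype V] [DecidableEq V] (C : SimpleGraph V) [DecidableRel C.Adj]
    (h rb : ℕ) (A : Finset V), Zero C h A rb → ∀ Y ⊆ Aᶜ, Y.card + 1 = h →
    (∀ v ∈ Y, dg C Y v = 2) → E2 C Y = 2 * (h - 1) → ∑ v ∈ Y, dg C A v = rb + 2 → False

/-- **NOB** (40 lines, uses GRO, TON, ZER, ZA, ZB, ZC, ZD).  There is no counterexample.
Proof.  GRO; if `|A| + 1 = h`: TON.  Otherwise ZER, ZA, ZB; `dg A z = 1`: ZC; `dg A z = 0`: ZD. -/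
def SpecNOB : Prop :=
  ∀ (V : Type) [Fintype V] [DecidableEq V] (C : SimpleGraph V) [DecidableRel C.Adj] (h : ℕ),
    32 ≤ h → ¬ Bad C h

/-- **FIN** (150 lines, uses NOB).  Translation.
Proof.  `C = Gᶜ`, `h = n + 1`, `V = Fin (2 n + 2)`.  `E2 C univ = ∑ x, C.degree x = 2 |E(C)|`
(`SimpleGraph.sum_degrees_eq_twice_card_edges`), `|E(G)| + |E(Gᶜ)| = (2 n + 2).choose 2`
(for instance `G.degree x + Gᶜ.degree x = 2 n + 1`, `SimpleGraph.degree_compl`, summed over `x`),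
`e(n) = (2 n + 1).choose 2 - n.choose 2 - 1`, so `E2 C univ = h (h + 1) + 2`.  As `¬ Bad C h` there is a
core set `S` of size `h + 1`, or `P, Q` of size `h`, disjoint (so `Q = Pᶜ`), without isolated vertices
in `C`.  `X := S` or `P`.  `B` = edges of `G` between `X` and `Xᶜ` (2-colourable), `D` = the other edges
of `G`.  For `v ∈ X` the neighbours of `v` in `D` are the `y ∈ X`, `y ≠ v`, not adjacent to `v` in `C`:
`|X| - 1 - dg C X v` many: `n + 2 - 1 - 2` or `n + 1 - 1 - 1`.  The same for `Xᶜ` (for `|X| = h + 1`: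
`|Xᶜ| = n`, at most `n - 1`). -/
def SpecFIN : Prop :=
  ∀ n : ℕ, 31 ≤ n → ∀ G : SimpleGraph (Fin (2 * n + 2)),
    G.edgeSet.ncard = (2 * n + 1).choose 2 - n.choose 2 - 1 →
    ∃ B D : SimpleGraph (Fin (2 * n + 2)), B.Colorable 2 ∧
      (∀ v, (D.neighborSet v).ncard ≤ n - 1) ∧ G = B ⊔ D

end Pool.Agent.Lib.MP270b6b.TN
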