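import Pool.Agent.Lib.MP_270b6b_co.TN.Spec

/-!
# MP_270b6b_co, module ZC: the balanced partition when `Aᶜ` minus a vertex is a cycle
-/

set_option autoImplicit false
set_option linter.unusedSectionVars false

namespace Pool.Agent.Lib.MP270b6b.TN

open Finset

namespace ZCM

variable {V : Type} [Fintype V] [DecidableEq V] {C : SimpleGraph V} [DecidableRel C.Adj]

/-- at most one vertex of `A` has fewer than four neighbours -/
theorem low_unique {h rb : ℕ} {A : Finset V} (Z : Zero C h A rb) (hrb : rb + 2 ≤ h) {x y : V}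
    (hx : x ∈ A) (hy : y ∈ A) (hxy : x ≠ y) (h1 : dg C A x ≤ 3) (h2 : dg C A y ≤ 3) : False := by
  have e1 := E2_erase C hx
  have hy' : y ∈ A.erase x := mem_erase.mpr ⟨hxy.symm, hy⟩
  have e2 := E2_erase C hy'
  have e3 := E2_le C ((A.erase x).erase y)
  have c1 : ((A.erase x).erase y).card = h - 2 := by
    rw [card_erase_of_mem hy', card_erase_of_mem hx, Z.card]; rfl
  have e4 := dg_mono C (erase_subset x A) y
  rw [c1] at e3
  have m := Z.miss
  have hb := Z.big
  obtain ⟨k, rfl⟩ : ∃ k, h = k + 3 := ⟨h - 3, by omega⟩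
  have s1 : k + 3 - 2 = k + 1 := by omega
  have s2 : k + 1 - 1 = k := by omega
  have s3 : k + 3 - 1 = k + 2 := by omega
  rw [s1, s2] at e3
  rw [s3] at m
  nlinarith

/-- the vertex which may have few neighbours -/
theorem choose_x1 {h rb : ℕ} {A : Finset V} (Z : Zero C h A rb) (hrb : rb + 2 ≤ h) (w0 : V) :
    ∃ x1 ∈ A, x1 ≠ w0 ∧ ∀ x ∈ A, x ≠ w0 → x ≠ x1 → 4 ≤ dg C A x := by
  by_cases hlow : ∃ x ∈ A, x ≠ w0 ∧ dg C A x ≤ 3
  · obtain ⟨x1, hx1, hne, hl⟩ := hlow
    refine ⟨x1, hx1, hne, fun x hx _ hxx => ?_⟩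
    by_contra hcon
    exact low_unique Z hrb hx hx1 hxx (by omega) hl
  · push Not at hlow
    have hc : 1 < A.card := by rw [Z.card]; have := Z.big; omega
    obtain ⟨x1, hx1, hne⟩ := exists_mem_ne hc w0
    exact ⟨x1, hx1, hne, fun x hx hxw _ => by have := hlow x hx hxw; omega⟩

/-- the path `x1, x2, x3` in `A` -/
theorem choose_path {h rb : ℕ} {A : Finset V} (Z : Zero C h A rb) (hrb : rb + 2 ≤ h) (w0 : V) :
    ∃ x1 ∈ A, ∃ x2 ∈ A, ∃ x3 ∈ A, x1 ≠ w0 ∧ x2 ≠ w0 ∧ x3 ≠ w0 ∧ x1 ≠ x2 ∧ x1 ≠ x3 ∧ x2 ≠ x3 ∧
      C.Adj x1 x2 ∧ C.Adj x2 x3 ∧ ∀ x ∈ A, x ≠ w0 → x ≠ x1 → 4 ≤ dg C A x := by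
  obtain ⟨x1, hx1, hne1, hall⟩ := choose_x1 Z hrb w0
  obtain ⟨x2, hx2, hne2, hadj⟩ : ∃ x2 ∈ A, x2 ≠ w0 ∧ C.Adj x1 x2 := by
    obtain ⟨y, hy, y', hy', hyy, ha, ha'⟩ := exists_of_two_le C (Z.core x1 hx1)
    by_cases hyw : y = w0
    · exact ⟨y', hy', fun h => hyy (hyw.trans h.symm), ha'⟩
    · exact ⟨y, hy, hyw, ha⟩
  have h12 : x1 ≠ x2 := C.ne_of_adj hadj
  have h4 := hall x2 hx2 hne2 h12.symm
  unfold dg at h4
  have c1 := pred_card_le_card_erase (s := A.filter (fun y => C.Adj x2 y)) (a := x1)
  have c2 := pred_card_le_card_erase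
    (s := (A.filter (fun y => C.Adj x2 y)).erase x1) (a := w0)
  have c3 : 0 < (((A.filter (fun y => C.Adj x2 y)).erase x1).erase w0).card := by omega
  obtain ⟨x3, hx3⟩ := card_pos.mp c3
  rw [mem_erase, mem_erase, mem_filter] at hx3
  obtain ⟨hw, h13, hx3A, hadj'⟩ := hx3
  exact ⟨x1, hx1, x2, hx2, x3, hx3A, hne1, hne2, hw, h12, h13.symm, C.ne_of_adj hadj', hadj,
    hadj', hall⟩

end ZCM

open ZCM in
theorem specZC : SpecZC := by
  intro V _ _ C _ h rb A Z Y hYA hY z hzA hzY hc hdeg hrb hz
  obtain ⟨w0, hw0, hzw⟩ := exists_of_one_le C hz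
  obtain ⟨x1, hx1, x2, hx2, x3, hx3, n1, n2, n3, n12, n13, n23, a12, a23, hall⟩ :=
    choose_path Z hrb w0
  obtain ⟨p, hp⟩ := hY
  obtain ⟨q, hq, hpq⟩ := exists_of_one_le C (S := Y) (x := p) (by rw [hdeg p hp]; omega)
  have hpqne : p ≠ q := C.ne_of_adj hpq
  have hdYA : ∀ v ∈ Y, v ∉ A := fun v hv => mem_compl.mp (hYA hv)
  have hbig := Z.big
  -- cardinalities
  have hcY : Y.card + 1 = h := by
    have h1 : (Aᶜ : Finset V).card = h := by
      rw [card_compl, Z.card, Z.bad.card]; omega
    rw [hc, card_insert_of_notMem hzY] at h1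
    exact h1
  have hX : ({x1, x2, x3} : Finset V).card = 3 := card_eq_three.mpr ⟨x1, x2, x3, n12, n13, n23, rfl⟩
  have hzp : z ≠ p := fun h => hzY (h ▸ hp)
  have hzq : z ≠ q := fun h => hzY (h ▸ hq)
  have hR : ({z, p, q} : Finset V).card = 3 := card_eq_three.mpr ⟨z, p, q, hzp, hzq, hpqne, rfl⟩
  have hXA : ({x1, x2, x3} : Finset V) ⊆ A := by
    intro x hx
    simp only [mem_insert, mem_singleton] at hx
    rcases hx with rfl | rfl | rfl <;> assumption
  have hpqY : ({p, q} : Finset V) ⊆ Y := by
    intro x hx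
    simp only [mem_insert, mem_singleton] at hx
    rcases hx with rfl | rfl <;> assumption
  have hpq2 : ({p, q} : Finset V).card = 2 := card_pair hpqne
  set X : Finset V := {x1, x2, x3} with hXdef
  set R : Finset V := {z, p, q} with hRdef
  have hRA : Disjoint (A \ X) R := by
    rw [disjoint_left]
    intro v hv hv'
    rw [mem_sdiff] at hv
    rw [hRdef] at hv'
    simp only [mem_insert, mem_singleton] at hv'
    rcases hv' with rfl | rfl | rfl
    · exact hzA hv.1
    · exact hdYA _ hp hv.1
    · exact hdYA _ hq hv.1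
  have hXY : Disjoint X (Y \ {p, q}) := by
    rw [disjoint_left]
    intro v hv hv'
    exact hdYA v (mem_sdiff.mp hv').1 (hXA hv)
  have hPQ : Disjoint ((A \ X) ∪ R) (X ∪ (Y \ {p, q})) := by
    rw [disjoint_left]
    intro v hv hv'
    rcases mem_union.mp hv with hv | hv
    · rw [mem_sdiff] at hv
      rcases mem_union.mp hv' with hv' | hv'
      · exact hv.2 hv'
      · exact hdYA v (mem_sdiff.mp hv').1 hv.1
    · rw [hRdef] at hv
      simp only [mem_insert, mem_singleton] at hv
      rcases mem_union.mp hv' with hv' | hv'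
      · have hvA := hXA hv'
        rcases hv with rfl | rfl | rfl
        · exact hzA hvA
        · exact hdYA _ hp hvA
        · exact hdYA _ hq hvA
      · rw [mem_sdiff] at hv'
        simp only [mem_insert, mem_singleton] at hv'
        rcases hv with rfl | rfl | rfl
        · exact hzY hv'.1
        · exact hv'.2 (Or.inl rfl)
        · exact hv'.2 (Or.inr rfl)
  have hPc : ((A \ X) ∪ R).card = h := by
    rw [card_union_of_disjoint hRA, card_sdiff_of_subset hXA, hX, hR, Z.card]
    omega
  have hQc : (X ∪ (Y \ {p, q})).card = h := by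
    rw [card_union_of_disjoint hXY, card_sdiff_of_subset hpqY, hX, hpq2]
    omega
  refine Z.bad.nobal _ _ hPQ hPc hQc ?_ ?_
  · intro v hv
    rcases mem_union.mp hv with hvA | hvR
    · by_cases hvw : v = w0
      · subst hvw
        refine one_le_dg C (y := z) ?_ hzw.symm
        exact mem_union_right _ (by rw [hRdef]; simp)
      · have hvA' := mem_sdiff.mp hvA
        have hvx : v ≠ x1 := fun h => hvA'.2 (by rw [hXdef, h]; simp)
        have h4 := hall v hvA'.1 hvw hvx
        have h5 := dg_sub C (sdiff_subset : A \ X ⊆ A) v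
        have h6 : (A \ (A \ X)).card ≤ 3 := by
          rw [← hX]
          apply card_le_card
          intro u hu
          rw [mem_sdiff, mem_sdiff] at hu
          by_contra hcon
          exact hu.2 ⟨hu.1, hcon⟩
        have h7 := dg_mono C (subset_union_left : A \ X ⊆ (A \ X) ∪ R) v
        omega
    · rw [hRdef] at hvR
      simp only [mem_insert, mem_singleton] at hvR
      rcases hvR with rfl | rfl | rfl
      · refine one_le_dg C (y := w0) ?_ hzw
        refine mem_union_left _ (mem_sdiff.mpr ⟨hw0, ?_⟩)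
        rw [hXdef]
        simp only [mem_insert, mem_singleton]
        rintro (h | h | h)
        · exact n1 h.symm
        · exact n2 h.symm
        · exact n3 h.symm
      · exact one_le_dg C (y := q) (mem_union_right _ (by rw [hRdef]; simp)) hpq
      · exact one_le_dg C (y := p) (mem_union_right _ (by rw [hRdef]; simp)) hpq.symm
  · intro v hv
    rcases mem_union.mp hv with hvX | hvY
    · rw [hXdef] at hvX
      simp only [mem_insert, mem_singleton] at hvX
      rcases hvX with rfl | rfl | rfl
      · exact one_le_dg C (y := x2) (mem_union_left _ (by rw [hXdef]; simp)) a12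
      · exact one_le_dg C (y := x1) (mem_union_left _ (by rw [hXdef]; simp)) a12.symm
      · exact one_le_dg C (y := x2) (mem_union_left _ (by rw [hXdef]; simp)) a23.symm
    · have hvY' := mem_sdiff.mp hvY
      simp only [mem_insert, mem_singleton, not_or] at hvY'
      obtain ⟨hvY1, hvp, hvq⟩ := hvY'
      obtain ⟨a, ha, b, hb, hab, hva, hvb⟩ := exists_of_two_le C (S := Y) (x := v)
        (by rw [hdeg v hvY1])
      by_cases haQ : a = p ∨ a = q
      · by_cases hbQ : b = p ∨ b = q
        · exfalso
          have hvp' : C.Adj v p := by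
            rcases haQ with rfl | rfl
            · exact hva
            · rcases hbQ with rfl | rfl
              · exact hvb
              · exact absurd rfl hab
          have hvq' : C.Adj v q := by
            rcases haQ with rfl | rfl
            · rcases hbQ with rfl | rfl
              · exact absurd rfl hab
              · exact hvb
            · exact hva
          have hcore : Core C ({v, p, q} : Finset V) := by
            intro u hu
            simp only [mem_insert, mem_singleton] at hu
            rcases hu with rfl | rfl | rfl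
            · exact two_le_dg C (y := p) (z := q) (by simp) (by simp) hpqne hvp' hvq'
            · exact two_le_dg C (y := v) (z := q) (by simp) (by simp) hvq hvp'.symm hpq
            · exact two_le_dg C (y := v) (z := p) (by simp) (by simp) hvp hvq'.symm hpq.symm
          have hsub : ({v, p, q} : Finset V) ⊆ Aᶜ := by
            intro u hu
            simp only [mem_insert, mem_singleton] at hu
            rcases hu with rfl | rfl | rfl
            · exact hYA hvY1
            · exact hYA hp
            · exact hYA hq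
          have hl := Z.large _ hsub ⟨v, by simp⟩ hcore
          have h3 : ({v, p, q} : Finset V).card ≤ 3 := card_le_three
          omega
        · push Not at hbQ
          refine one_le_dg C (y := b) (mem_union_right _ (mem_sdiff.mpr ⟨hb, ?_⟩)) hvb
          simp only [mem_insert, mem_singleton, not_or]
          exact hbQ
      · push Not at haQ
        refine one_le_dg C (y := a) (mem_union_right _ (mem_sdiff.mpr ⟨ha, ?_⟩)) hva
        simp only [mem_insert, mem_singleton, not_or]
        exact haQ

end Pool.Agent.Lib.MP270b6b.TN
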